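import Mathlib

/-!
# MP_cad6ee_co: the question about 2-large sets is a question about finite sets

For all `s` and `r`: every `s`-large set is `r`-large if and only if for every `k` there is `K`
such that every finite set `D` of positive integers which can be avoided by an `r`-colouring
(no monochromatic `k`-term progression with difference in `D`) can be avoided by an `s`-colouring
(no monochromatic `K`-term progression with difference in `D`).

From finite to infinite this is compactness. In the other direction finite sets `D n` which can be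
avoided by periodic `r`-colourings `φ n` are glued to the set `L = ⋃ n, m n * D n`, where `m n` times
the period of `φ n` divides `m (n + 1)` and `m (n + 1)` is large, and the colouring of `L` is
`x ↦ ∑ n, (φ n (x / m n) - φ n 0)`. Along a progression with difference `m n * e`, `e ∈ D n`,
the terms below `n` are constant by periodicity, and the terms above `n` can change only at
one multiple of `m (n + 1)`, so one half of the progression has no such change.
-/

set_option autoImplicit false

namespace Pool.Agent.Results.MP_cad6ee_co.GluingEquivalence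

/-- Compactness: if every finite subset of `A` can be avoided with length `K`, then so can `A`. -/
theorem compact (s K : ℕ) (A : Set ℕ)
    (h : ∀ D : Finset ℕ, (∀ d ∈ D, d ∈ A) →
      ∃ f : ℕ → Fin s, ∀ a d : ℕ, 0 < a → d ∈ D → ∃ i < K, f (a + i * d) ≠ f a) :
    ∃ f : ℕ → Fin s, ∀ a d : ℕ, 0 < a → d ∈ A → ∃ i < K, f (a + i * d) ≠ f a := by
  classical
  have h' : ∀ n : ℕ, ∃ f : ℕ → Fin s, ∀ a d : ℕ, 0 < a → d ∈ A → d ≤ n →
      ∃ i < K, f (a + i * d) ≠ f a := by
    intro n
    obtain ⟨f, hf⟩ := h ((Finset.range (n + 1)).filter (fun d => d ∈ A)) (by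
      intro d hd
      exact (Finset.mem_filter.1 hd).2)
    refine ⟨f, fun a d ha hd hn => hf a d ha ?_⟩
    exact Finset.mem_filter.2 ⟨Finset.mem_range.2 (by omega), hd⟩
  choose F hF using h'
  -- the limit along an ultrafilter
  let U : Ultrafilter ℕ := Filter.hyperfilter ℕ
  have hlim : ∀ x : ℕ, ∃ c : Fin s, ∀ᶠ n in (U : Filter ℕ), F n x = c := by
    intro x
    have : ∀ᶠ n in (U : Filter ℕ), ∃ c ∈ (Set.univ : Set (Fin s)), F n x = c :=
      Filter.Eventually.of_forall fun n => ⟨F n x, Set.mem_univ _, rfl⟩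
    rw [Ultrafilter.eventually_exists_mem_iff Set.finite_univ] at this
    obtain ⟨c, -, hc⟩ := this
    exact ⟨c, hc⟩
  choose f hf using hlim
  refine ⟨f, fun a d ha hd => ?_⟩
  have h1 : ∀ᶠ n in (U : Filter ℕ), d ≤ n := by
    have : ∀ᶠ n in Filter.cofinite, d ≤ n := by
      rw [Nat.cofinite_eq_atTop]
      exact Filter.eventually_ge_atTop d
    exact Filter.hyperfilter_le_cofinite this
  have h2 : ∀ᶠ n in (U : Filter ℕ), ∀ i ∈ Finset.range K, F n (a + i * d) = f (a + i * d) :=
    (Filter.eventually_all_finset _).2 fun i _ => hf (a + i * d)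
  obtain ⟨n, hn1, hn2, hn3⟩ := (h1.and (h2.and (hf a))).exists
  obtain ⟨i, hi, hne⟩ := hF n a d ha hd hn1
  refine ⟨i, hi, ?_⟩
  rw [← hn2 i (Finset.mem_range.2 hi), ← hn3]
  exact hne

/-- A finite set which can be avoided can be avoided by a periodic colouring, and then also by
progressions which start at `0`. -/
theorem periodic (r k : ℕ) (D : Finset ℕ)
    (h : ∃ f : ℕ → Fin r, ∀ a d : ℕ, 0 < a → d ∈ D → ∃ i < k, f (a + i * d) ≠ f a) :
    ∃ (P : ℕ) (f : ℕ → Fin r), 0 < P ∧ (∀ x, f (x + P) = f x) ∧
      ∀ a d : ℕ, d ∈ D → ∃ i < k, f (a + i * d) ≠ f a := by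
  classical
  obtain ⟨f, hf⟩ := h
  set M : ℕ := k * (D.sup id) + 1 with hM
  obtain ⟨u, v, huv, hW⟩ := Finite.exists_ne_map_eq_of_infinite
    (fun n : ℕ => fun j : Fin M => f (n + 1 + j))
  wlog hlt : u < v generalizing u v
  · exact this v u huv.symm hW.symm (by omega)
  obtain ⟨P, hP⟩ : ∃ P, v = u + P := ⟨v - u, by omega⟩
  have hPpos : 0 < P := by omega
  have hW' : ∀ j < M, f (u + 1 + P + j) = f (u + 1 + j) := by
    intro j hj
    have := congrFun hW ⟨j, hj⟩
    simp only at this
    rw [this, hP]
    congr 1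
    omega
  have key : ∀ x, x < P + M → f (u + 1 + x) = f (u + 1 + x % P) := by
    intro x
    induction x using Nat.strong_induction_on with
    | _ x ih =>
      intro hx
      by_cases hxP : x < P
      · rw [Nat.mod_eq_of_lt hxP]
      · have h1 : x - P < M := by omega
        have h2 := hW' (x - P) h1
        have h3 : u + 1 + P + (x - P) = u + 1 + x := by omega
        rw [h3] at h2
        rw [h2, ih (x - P) (by omega) (by omega)]
        congr 2
        rw [← Nat.mod_eq_sub_mod (by omega)]
  refine ⟨P, fun x => f (u + 1 + x % P), hPpos, fun x => by simp, ?_⟩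
  intro a d hd
  obtain ⟨i, hi, hne⟩ := hf (u + 1 + a % P) d (by omega) hd
  refine ⟨i, hi, ?_⟩
  have hdle : d ≤ D.sup id := Finset.le_sup (f := id) hd
  have h1 : a % P + i * d < P + M := by
    have h2 := Nat.mod_lt a hPpos
    have h3 : i * d ≤ k * (D.sup id) := Nat.mul_le_mul hi.le hdle
    omega
  have h2 := key (a % P + i * d) h1
  show f (u + 1 + (a + i * d) % P) ≠ f (u + 1 + a % P)
  have h3 : (a + i * d) % P = (a % P + i * d) % P := by
    rw [Nat.add_mod, Nat.add_mod (a % P)]
    simp
  rw [h3, ← h2, ← add_assoc]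
  exact hne

/-- The scales. -/
def scale (Q : ℕ → ℕ) : ℕ → ℕ
  | 0 => 1
  | n + 1 => scale Q n * Q n

theorem scale_pos (Q : ℕ → ℕ) (hQ : ∀ n, 2 ≤ Q n) (n : ℕ) : n < scale Q n := by
  induction n with
  | zero => simp [scale]
  | succ n ih =>
    have h := hQ n
    simp only [scale]
    nlinarith

theorem scale_dvd (Q : ℕ → ℕ) {i j : ℕ} (h : i ≤ j) : scale Q i ∣ scale Q j := by
  induction j, h using Nat.le_induction with
  | base => exact dvd_rfl
  | succ j _ ih => exact ih.trans (Dvd.intro _ rfl)

/-- The glued colouring. -/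
theorem glue (r k : ℕ) (D : ℕ → Finset ℕ) (P : ℕ → ℕ) (φ : ℕ → ℕ → Fin (r + 1))
    (hP : ∀ n, 0 < P n) (hper : ∀ n x, φ n (x + P n) = φ n x)
    (hφ : ∀ n a d : ℕ, d ∈ D n → ∃ i < k, φ n (a + i * d) ≠ φ n a) :
    ∃ (m : ℕ → ℕ) (c : ℕ → Fin (r + 1)), (∀ n, 0 < m n) ∧
      ∀ n a d : ℕ, d ∈ D n → ∃ i < 2 * k, c (a + i * (m n * d)) ≠ c a := by
  classical
  set Q : ℕ → ℕ := fun n => P n * (2 * k * ((D n).sup id) + 2) with hQdef
  have hQ2 : ∀ n, 2 ≤ Q n := by
    intro n
    calc 2 ≤ 2 * k * ((D n).sup id) + 2 := by omega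
      _ ≤ P n * (2 * k * ((D n).sup id) + 2) := Nat.le_mul_of_pos_left _ (hP n)
  set m : ℕ → ℕ := scale Q with hm
  have hmpos : ∀ n, n < m n := scale_pos Q hQ2
  have hm0 : ∀ n, 0 < m n := fun n => lt_of_le_of_lt (Nat.zero_le _) (hmpos n)
  have hmsucc : ∀ n, m (n + 1) = m n * Q n := fun n => rfl
  set t : ℕ → ℕ → Fin (r + 1) := fun n x => φ n (x / m n) - φ n 0 with ht
  set c : ℕ → Fin (r + 1) := fun x => ∑ n ∈ Finset.range (x + 1), t n x with hc
  have hperm : ∀ n x j, φ n (x + j * P n) = φ n x := by
    intro n x j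
    induction j with
    | zero => simp
    | succ j ih =>
      rw [Nat.succ_mul, ← add_assoc, hper, ih]
  have hcN : ∀ x N, x < N → c x = ∑ n ∈ Finset.range N, t n x := by
    intro x N hN
    simp only [hc]
    refine Finset.sum_subset (Finset.range_subset_range.2 (by omega)) ?_
    intro n _ hn
    rw [Finset.mem_range, not_lt] at hn
    have : x / m n = 0 := Nat.div_eq_of_lt (lt_of_lt_of_le (by omega) (hmpos n).le)
    simp [ht, this]
  refine ⟨m, c, hm0, ?_⟩
  intro n a d hd
  by_contra hcon
  push Not at hcon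
  have hdle : d ≤ (D n).sup id := Finset.le_sup (f := id) hd
  -- the whole progression is shorter than `m (n + 1)`
  have hspan : ∀ i < 2 * k, i * (m n * d) < m (n + 1) := by
    intro i hi
    rw [hmsucc]
    have h1 : i * (m n * d) = m n * (i * d) := by ring
    rw [h1]
    refine Nat.mul_lt_mul_of_pos_left ?_ (hm0 n)
    have h2 : i * d ≤ 2 * k * (D n).sup id := Nat.mul_le_mul hi.le hdle
    calc i * d < 2 * k * ((D n).sup id) + 2 := by omega
      _ ≤ P n * (2 * k * ((D n).sup id) + 2) := Nat.le_mul_of_pos_left _ (hP n)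
  -- there is a half on which the quotient by `m (n + 1)` is constant
  obtain ⟨i0, hi0, hconst⟩ : ∃ i0, i0 ≤ k ∧ ∀ i < k,
      (a + (i0 + i) * (m n * d)) / m (n + 1) = (a + i0 * (m n * d)) / m (n + 1) := by
    by_cases hk : k = 0
    · exact ⟨0, by omega, by intro i hi; omega⟩
    set g : ℕ → ℕ := fun i => (a + i * (m n * d)) / m (n + 1) with hg
    have hmono : ∀ i j, i ≤ j → g i ≤ g j := by
      intro i j hij
      refine Nat.div_le_div_right ?_
      exact Nat.add_le_add_left (Nat.mul_le_mul_right _ hij) _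
    have htop : ∀ i < 2 * k, g i ≤ g 0 + 1 := by
      intro i hi
      have h1 := hspan i hi
      simp only [hg]
      rw [Nat.zero_mul, add_zero]
      calc (a + i * (m n * d)) / m (n + 1) ≤ (a + m (n + 1)) / m (n + 1) :=
            Nat.div_le_div_right (by omega)
        _ = a / m (n + 1) + 1 := Nat.add_div_right _ (hm0 _)
    by_cases hhalf : g (k - 1) = g 0
    · refine ⟨0, by omega, fun i hi => ?_⟩
      have h1 := hmono 0 i (by omega)
      have h2 := hmono i (k - 1) (by omega)
      have h3 : g i = g 0 := by omega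
      simpa [hg] using h3
    · refine ⟨k, le_rfl, fun i hi => ?_⟩
      have h1 := hmono 0 (k - 1) (by omega)
      have h2 := hmono (k - 1) k (by omega)
      have h3 := hmono k (k + i) (by omega)
      have h4 := htop (k + i) (by omega)
      have h5 : g (k + i) = g k := by omega
      exact h5
  set b : ℕ := a + i0 * (m n * d) with hb
  have hbi : ∀ i, a + (i0 + i) * (m n * d) = b + i * (m n * d) := by
    intro i
    rw [hb]
    ring
  -- a place where the colouring `φ n` changes
  obtain ⟨i, hi, hne⟩ := hφ n (b / m n) d hd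
  have hbd : (b + i * (m n * d)) / m n = b / m n + i * d := by
    have : b + i * (m n * d) = b + m n * (i * d) := by ring
    rw [this, Nat.add_mul_div_left _ _ (hm0 n)]
  have hlow : ∀ j < n, t j (b + i * (m n * d)) = t j b := by
    intro j hj
    obtain ⟨w, hw⟩ := scale_dvd Q (show j + 1 ≤ n from hj)
    have h1 : m n = m j * (Q j * w) := by
      rw [show m n = m (j + 1) * w from hw, hmsucc]
      ring
    have h2 : b + i * (m n * d) = b + m j * (i * d * w * (2 * k * ((D j).sup id) + 2) * P j) := by
      rw [h1]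
      simp only [hQdef]
      ring
    simp only [ht]
    rw [h2, Nat.add_mul_div_left _ _ (hm0 j), hperm]
  have hhigh : ∀ j, n < j → t j (b + i * (m n * d)) = t j b := by
    intro j hj
    obtain ⟨w, hw⟩ := scale_dvd Q (show n + 1 ≤ j from hj)
    have h1 : m j = m (n + 1) * w := hw
    have h2 := hconst i hi
    rw [hbi] at h2
    simp only [ht]
    rw [h1, ← Nat.div_div_eq_div_mul, ← Nat.div_div_eq_div_mul, h2]
  have hdiff : c (b + i * (m n * d)) ≠ c b := by
    have hN1 := hcN (b + i * (m n * d)) (b + i * (m n * d) + n + 1) (by omega)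
    have hN2 := hcN b (b + i * (m n * d) + n + 1) (by omega)
    have hnmem : n ∈ Finset.range (b + i * (m n * d) + n + 1) := Finset.mem_range.2 (by omega)
    rw [hN1, hN2, ← Finset.add_sum_erase _ _ hnmem, ← Finset.add_sum_erase _ (fun j => t j b) hnmem]
    have hrest : ∑ j ∈ (Finset.range (b + i * (m n * d) + n + 1)).erase n,
        t j (b + i * (m n * d)) =
        ∑ j ∈ (Finset.range (b + i * (m n * d) + n + 1)).erase n, t j b := by
      refine Finset.sum_congr rfl fun j hj => ?_
      have hjn : j ≠ n := (Finset.mem_erase.1 hj).1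
      rcases lt_or_gt_of_ne hjn with h | h
      · exact hlow j h
      · exact hhigh j h
    rw [hrest]
    intro heq
    have h3 : t n (b + i * (m n * d)) = t n b := add_right_cancel heq
    simp only [ht] at h3
    rw [hbd] at h3
    exact hne (sub_left_injective h3)
  apply hdiff
  have e1 : c (b + i * (m n * d)) = c a := by
    rw [← hbi]
    exact hcon (i0 + i) (by omega)
  have e2 : c b = c a := by
    by_cases hk : i0 < 2 * k
    · exact hcon i0 hk
    · omega
  rw [e1, e2]

/-- For all `s` and `r`, every `s`-large set of positive integers is `r`-large if and only if for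
every `k` there is `K` such that every finite set `D` of positive integers for which there is an
`r`-colouring without monochromatic `k`-term progressions with difference in `D` has an
`s`-colouring without monochromatic `K`-term progressions with difference in `D`. -/
theorem result (s r : ℕ) :
    (∀ A : Set ℕ, (∀ d ∈ A, 0 < d) →
      (∀ f : ℕ → Fin s, ∀ k : ℕ, ∃ a d : ℕ, 0 < a ∧ d ∈ A ∧ ∀ i < k, f (a + i * d) = f a) →
      ∀ f : ℕ → Fin r, ∀ k : ℕ, ∃ a d : ℕ, 0 < a ∧ d ∈ A ∧ ∀ i < k, f (a + i * d) = f a) ↔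
    (∀ k : ℕ, ∃ K : ℕ, ∀ D : Finset ℕ, (∀ d ∈ D, 0 < d) →
      (∃ f : ℕ → Fin r, ∀ a d : ℕ, 0 < a → d ∈ D → ∃ i < k, f (a + i * d) ≠ f a) →
      ∃ f : ℕ → Fin s, ∀ a d : ℕ, 0 < a → d ∈ D → ∃ i < K, f (a + i * d) ≠ f a) := by
  classical
  constructor
  · intro hQ k
    by_contra hcon
    push Not at hcon
    choose D hDpos hDr hDs using hcon
    rcases r with _ | r
    · obtain ⟨f, -⟩ := hDr 0
      exact (f 0).elim0
    choose P φ hP hper hφ using fun K => periodic (r + 1) k (D K) (hDr K)
    obtain ⟨m, c, hm, hc⟩ := glue r k D P φ hP hper hφ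
    obtain ⟨a, d, -, ⟨n, e, he, rfl⟩, hmono⟩ := hQ {d | ∃ n, ∃ e ∈ D n, d = m n * e}
      (by
        rintro d ⟨n, e, he, rfl⟩
        exact Nat.mul_pos (hm n) (hDpos n e he))
      (by
        intro f K
        obtain ⟨a, d, ha, hd, hmono⟩ := hDs K (fun x => f (m K * x))
        refine ⟨m K * a, m K * d, Nat.mul_pos (hm K) ha, ⟨K, d, hd, rfl⟩, fun i hi => ?_⟩
        have := hmono i hi
        rw [← this]
        congr 1
        ring)
      c (2 * k)
    obtain ⟨i, hi, hne⟩ := hc n a e he
    exact hne (hmono i hi)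
  · intro hU A hA hs f k
    by_contra hcon
    push Not at hcon
    obtain ⟨K, hK⟩ := hU k
    obtain ⟨g, hg⟩ := compact s K A (by
      intro D hD
      refine hK D (fun d hd => hA d (hD d hd)) ⟨f, fun a d ha hd => ?_⟩
      exact hcon a d ha (hD d hd))
    obtain ⟨a, d, ha, hd, hmono⟩ := hs g K
    obtain ⟨i, hi, hne⟩ := hg a d ha hd
    exact hne (hmono i hi)

end Pool.Agent.Results.MP_cad6ee_co.GluingEquivalence
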