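import Pool.Agent.H65.TL.Mat2

/-!
# MP_cad6ee_co: 2-large sets are sets of recurrence for polynomial orbits in nilmanifolds

If `A` is 2-large, then for all polynomial maps `P_t` into the unitriangular groups `U_n(ℝ)` with
`P_t(0) = 1` and all `ε > 0` there is `d ∈ A` such that every `P_t(d)` is within `ε` of the identity
modulo `U_n(ℤ)`.
-/

set_option autoImplicit false

namespace Pool.Agent.Results.MP_cad6ee_co.NilBohr

theorem result (A : Set ℕ)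
    (hA : ∀ f : ℕ → Fin 2, ∀ k : ℕ, ∃ a d : ℕ, 0 < a ∧ d ∈ A ∧ ∀ i < k, f (a + i * d) = f a)
    (m : ℕ) (n : Fin m → ℕ) (P : ∀ t, Matrix (Fin (n t)) (Fin (n t)) (Polynomial ℝ))
    (h1 : ∀ t i, P t i i = 1) (h2 : ∀ t i j, j < i → P t i j = 0)
    (h3 : ∀ t i j, i < j → (P t i j).eval 0 = 0) (ε : ℝ) (hε : 0 < ε) :
    ∃ d ∈ A, ∀ t, ∃ γ : Matrix (Fin (n t)) (Fin (n t)) ℤ,
      (∀ i, γ i i = 1) ∧ (∀ i j, j < i → γ i j = 0) ∧ ∀ i j,
        |(((P t).map fun p => p.eval (d : ℝ)) * (γ.map fun z => (z : ℝ))) i j -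
          (1 : Matrix (Fin (n t)) (Fin (n t)) ℝ) i j| < ε :=
  Pool.Agent.H65.TL.mat_rec A hA m n P h1 h2 h3 ε hε

end Pool.Agent.Results.MP_cad6ee_co.NilBohr
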