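import Mathlib

/-!
# MP_cad6ee_co: products of 2-large sets

If `B 0, …, B (n - 1)` are sets of positive integers, `B i` is `r i`-large, and `A` contains all
the numbers `c * b 0 * ⋯ * b (n - 1)` with `b i ∈ B i`, then `A` is `(∏ i, r i)`-large. With
`r i = 2` this says that `A` is `2 ^ n`-large. So a 2-large set which is closed under
multiplication is large.

Proof for two sets `D` (`s`-large) and `E` (`t`-large): write an `s * t`-colouring as a pair of an
`s`-colouring and a `t`-colouring. There is a progression with difference `d` in `D`, as long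
as we like, on which the first colouring is constant. The second colouring is a `t`-colouring of
this progression, which contains a progression of length `k` with a difference `e` in `E` (measured
inside the progression) on which it is constant; for this the length of the first
progression has to be larger than a bound which depends only on `E`, `t`, `k` (compactness).
-/

set_option autoImplicit false

namespace Pool.Agent.Results.MP_cad6ee_co.ProductSets

/-- Compactness: for a `t`-large set the progressions can be found in a bounded interval. -/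
theorem bounded (t : ℕ) (E : Set ℕ)
    (hE : ∀ f : ℕ → Fin t, ∀ k : ℕ, ∃ a d : ℕ, 0 < a ∧ d ∈ E ∧ ∀ i < k, f (a + i * d) = f a)
    (k : ℕ) : ∃ N : ℕ, ∀ f : ℕ → Fin t, ∃ a d : ℕ, 0 < a ∧ d ∈ E ∧ a ≤ N ∧
      ∀ i < k, a + i * d ≤ N ∧ f (a + i * d) = f a := by
  classical
  by_contra hcon
  push Not at hcon
  choose F hF using hcon
  let U : Ultrafilter ℕ := Filter.hyperfilter ℕ
  have hlim : ∀ x : ℕ, ∃ c : Fin t, ∀ᶠ n in (U : Filter ℕ), F n x = c := by
    intro x
    have : ∀ᶠ n in (U : Filter ℕ), ∃ c ∈ (Set.univ : Set (Fin t)), F n x = c :=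
      Filter.Eventually.of_forall fun n => ⟨F n x, Set.mem_univ _, rfl⟩
    rw [Ultrafilter.eventually_exists_mem_iff Set.finite_univ] at this
    obtain ⟨c, -, hc⟩ := this
    exact ⟨c, hc⟩
  choose f hf using hlim
  obtain ⟨a, d, ha, hd, hmono⟩ := hE f k
  have h1 : ∀ᶠ n in (U : Filter ℕ), a + k * d ≤ n := by
    have : ∀ᶠ n in Filter.cofinite, a + k * d ≤ n := by
      rw [Nat.cofinite_eq_atTop]
      exact Filter.eventually_ge_atTop _
    exact Filter.hyperfilter_le_cofinite this
  have h2 : ∀ᶠ n in (U : Filter ℕ), ∀ i ∈ Finset.range k, F n (a + i * d) = f (a + i * d) :=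
    (Filter.eventually_all_finset _).2 fun i _ => hf (a + i * d)
  obtain ⟨n, hn1, hn2, hn3⟩ := (h1.and (h2.and (hf a))).exists
  obtain ⟨i, hi, hne⟩ := hF n a d ha hd (by omega)
  have h3 : a + i * d ≤ n := by
    have : i * d ≤ k * d := Nat.mul_le_mul_right _ hi.le
    omega
  apply hne h3
  rw [hn2 i (Finset.mem_range.2 hi), hmono i hi, hn3]

/-- The product of an `s`-large and a `t`-large set is `s * t`-large. -/
theorem two (s t : ℕ) (D E A : Set ℕ)
    (hD : ∀ f : ℕ → Fin s, ∀ k : ℕ, ∃ a d : ℕ, 0 < a ∧ d ∈ D ∧ ∀ i < k, f (a + i * d) = f a)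
    (hE : ∀ f : ℕ → Fin t, ∀ k : ℕ, ∃ a d : ℕ, 0 < a ∧ d ∈ E ∧ ∀ i < k, f (a + i * d) = f a)
    (hA : ∀ d ∈ D, ∀ e ∈ E, d * e ∈ A) :
    ∀ f : ℕ → Fin s × Fin t, ∀ k : ℕ,
      ∃ a d : ℕ, 0 < a ∧ d ∈ A ∧ ∀ i < k, f (a + i * d) = f a := by
  intro f k
  obtain ⟨N, hN⟩ := bounded t E hE k
  obtain ⟨a, d, ha, hd, h1⟩ := hD (fun x => (f x).1) (N + 1)
  obtain ⟨b, e, hb, he, hbN, h2⟩ := hN (fun j => (f (a + j * d)).2)
  refine ⟨a + b * d, d * e, by omega, hA d hd e he, fun i hi => ?_⟩
  obtain ⟨h3, h4⟩ := h2 i hi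
  have h5 : a + b * d + i * (d * e) = a + (b + i * e) * d := by ring
  rw [h5]
  refine Prod.ext ?_ h4
  exact (h1 (b + i * e) (by omega)).trans (h1 b (by omega)).symm

/-- Let `B i` be `r i`-large for `i < n` and let `A` contain all the numbers `c * ∏ i, b i` with
`b i ∈ B i`. Then `A` is `(∏ i, r i)`-large. -/
theorem result (n : ℕ) (r : Fin n → ℕ) (B : Fin n → Set ℕ)
    (hB : ∀ i, ∀ f : ℕ → Fin (r i), ∀ k : ℕ,
      ∃ a d : ℕ, 0 < a ∧ d ∈ B i ∧ ∀ j < k, f (a + j * d) = f a)
    (c : ℕ) (A : Set ℕ)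
    (hA : ∀ b : Fin n → ℕ, (∀ i, b i ∈ B i) → c * ∏ i, b i ∈ A) :
    ∀ f : ℕ → Fin (∏ i, r i), ∀ k : ℕ,
      ∃ a d : ℕ, 0 < a ∧ d ∈ A ∧ ∀ j < k, f (a + j * d) = f a := by
  induction n generalizing A with
  | zero =>
    intro f k
    refine ⟨1, c, one_pos, by simpa using hA Fin.elim0 (fun i => i.elim0), fun j _ => ?_⟩
    have : ∀ x y : Fin (∏ i : Fin 0, r i), x = y := by
      rw [Fin.prod_univ_zero]
      intro x y
      exact Subsingleton.elim x y
    exact this _ _
  | succ n ih =>
    intro f k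
    have h1 := ih (fun i => r i.succ) (fun i => B i.succ) (fun i => hB i.succ)
      {d | ∃ b : Fin n → ℕ, (∀ i, b i ∈ B i.succ) ∧ d = c * ∏ i, b i}
      (fun b hb => ⟨b, hb, rfl⟩)
    have hprod : ∏ i : Fin (n + 1), r i = r 0 * ∏ i : Fin n, r i.succ := Fin.prod_univ_succ r
    let g : ℕ → Fin (∏ i : Fin n, r i.succ) × Fin (r 0) := fun x =>
      (finProdFinEquiv.symm (Fin.cast hprod (f x))).swap
    obtain ⟨a, d, ha, hd, h2⟩ := two (∏ i : Fin n, r i.succ) (r 0) _ (B 0) A h1 (hB 0) (by
      rintro d ⟨b, hb, rfl⟩ e he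
      have h3 := hA (Fin.cons e b) (by
        intro i
        refine Fin.cases ?_ ?_ i
        · simpa using he
        · intro j
          simpa using hb j)
      rw [Fin.prod_univ_succ] at h3
      simp only [Fin.cons_zero, Fin.cons_succ] at h3
      have h4 : (c * ∏ i, b i) * e = c * (e * ∏ i, b i) := by ring
      rw [h4]
      exact h3) g k
    refine ⟨a, d, ha, hd, fun j hj => ?_⟩
    have h5 := h2 j hj
    have h6 : finProdFinEquiv.symm (Fin.cast hprod (f (a + j * d))) =
        finProdFinEquiv.symm (Fin.cast hprod (f a)) := Prod.swap_injective h5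
    exact Fin.cast_injective hprod (finProdFinEquiv.symm.injective h6)

end Pool.Agent.Results.MP_cad6ee_co.ProductSets
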