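import Pool.Agent.H19.LargeThree

/-!
# MP_cad6ee_co: from two colours to three colours, for pairs

If every 2-colouring of the positive integers has a monochromatic 3-term progression with difference
in `A`, then every 3-colouring has two points of the same colour at a distance in `A`.
-/

set_option autoImplicit false

namespace Pool.Agent.Results.MP_cad6ee_co.ThreeColoursPairs

theorem result (A : Set ℕ) (hA : ∀ d ∈ A, 0 < d)
    (h2 : ∀ f : ℕ → Fin 2, ∃ a d : ℕ, 0 < a ∧ d ∈ A ∧ ∀ i < 3, f (a + i * d) = f a) :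
    ∀ f : ℕ → Fin 3, ∃ a d : ℕ, 0 < a ∧ d ∈ A ∧ ∀ i < 2, f (a + i * d) = f a := by
  intro f
  by_contra hcon
  have hf : ∀ a d : ℕ, 0 < a → d ∈ A → f (a + d) ≠ f a := by
    intro a d ha hd he
    apply hcon
    refine ⟨a, d, ha, hd, fun i hi => ?_⟩
    interval_cases i
    · simp
    · rw [one_mul]; exact he
  obtain ⟨F, hF⟩ := Pool.Agent.H19.LargeThree.exists_int_colouring A f hf
  obtain ⟨β, hβ⟩ := Pool.Agent.H19.LargeThree.exists_rotation F ((fun n : ℕ => (n : ℤ)) '' A)
    (by
      rintro d ⟨n, hn, rfl⟩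
      show (0 : ℤ) < (n : ℤ)
      exact_mod_cast hA n hn)
    (by
      rintro d ⟨n, hn, rfl⟩ x
      exact hF n hn x)
  obtain ⟨a, d, _, hd, hap⟩ := h2 (Pool.Agent.H19.LargeThree.half β)
  refine Pool.Agent.H19.LargeThree.half_no_ap β a d (fun m => ?_) hap
  have := hβ (d : ℤ) ⟨d, hd, rfl⟩ m
  push_cast at this
  linarith

end Pool.Agent.Results.MP_cad6ee_co.ThreeColoursPairs
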